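import Pool.Agent.Q42.SF.Dual
import Pool.Agent.Cov.PNT

set_option autoImplicit false

/-! Few quadratic fields. -/

namespace Pool.Agent.Q42.SF

open Finset Filter Topology

/-- the odd primes up to `y` -/
noncomputable def PP (y : ℕ) : Finset ℕ := (range (y + 1)).filter (fun p => p.Prime ∧ p ≠ 2)

theorem PP_card (y : ℕ) : (Nat.primeCounting y : ℝ) - 1 ≤ ((PP y).card : ℝ) := by
  have h1 : Nat.primeCounting y = ((range (y + 1)).filter Nat.Prime).card := by
    rw [Nat.primeCounting, Nat.primeCounting', Nat.count_eq_card_filter_range]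
  have h2 : (range (y + 1)).filter Nat.Prime ⊆ insert 2 (PP y) := by
    intro p hp
    unfold PP
    rw [mem_insert, mem_filter]
    rw [mem_filter] at hp
    by_cases h : p = 2
    · exact Or.inl h
    · exact Or.inr ⟨hp.1, hp.2, h⟩
  have h3 := (card_le_card h2).trans (card_insert_le _ _)
  rw [← h1] at h3
  have h4 : (Nat.primeCounting y : ℝ) ≤ (PP y).card + 1 := by exact_mod_cast h3
  linarith

theorem many_primes (η : ℝ) (h0 : 0 < η) (h1 : η ≤ 1) :
    ∀ᶠ y : ℕ in atTop, (y : ℝ) ^ (1 - η) ≤ ((PP y).card : ℝ) := by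
  have e1 : ∀ᶠ x : ℝ in atTop,
      1 / 2 < (Nat.primeCounting ⌊x⌋₊ : ℝ) * Real.log x / x :=
    Pool.Agent.Cov.PNT.pi_tendsto.eventually (lt_mem_nhds (by norm_num))
  have e2 : ∀ᶠ x : ℝ in atTop, Real.log x ≤ x ^ (η / 2) := by
    have := (isLittleO_log_rpow_atTop (show 0 < η / 2 by positivity)).bound one_pos
    filter_upwards [this, eventually_ge_atTop 1] with x hx hx1
    rw [one_mul, Real.norm_eq_abs, Real.norm_eq_abs, abs_of_nonneg (Real.log_nonneg hx1),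
      abs_of_nonneg (by positivity)] at hx
    exact hx
  have e3 : ∀ᶠ x : ℝ in atTop, 4 ≤ x ^ (η / 2) :=
    (tendsto_rpow_atTop (show 0 < η / 2 by positivity)).eventually_ge_atTop 4
  have e4 := tendsto_natCast_atTop_atTop.eventually (e1.and (e2.and (e3.and (eventually_gt_atTop (1 : ℝ)))))
  filter_upwards [e4] with y hy
  obtain ⟨f1, f2, f3, f4⟩ := hy
  rw [Nat.floor_natCast] at f1
  refine le_trans ?_ (PP_card y)
  set x : ℝ := (y : ℝ) with hx
  have hx0 : 0 < x := by linarith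
  rw [lt_div_iff₀ hx0] at f1
  have hl : 0 < Real.log x := Real.log_pos f4
  set π : ℝ := (Nat.primeCounting y : ℝ) with hπ
  have hπ0 : 0 ≤ π := by rw [hπ]; positivity
  -- x / 2 ≤ π * x ^ (η / 2)
  have f5 : 1 / 2 * x ≤ π * x ^ (η / 2) := f1.le.trans (mul_le_mul_of_nonneg_left f2 hπ0)
  have f6 : x = x ^ (1 - η) * (x ^ (η / 2) * x ^ (η / 2)) := by
    rw [← Real.rpow_add hx0, ← Real.rpow_add hx0]
    have : 1 - η + (η / 2 + η / 2) = 1 := by ring
    rw [this, Real.rpow_one]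
  have hu : 0 < x ^ (η / 2) := by positivity
  have f7 : 1 / 2 * (x ^ (1 - η) * x ^ (η / 2)) ≤ π := by
    have : 1 / 2 * (x ^ (1 - η) * x ^ (η / 2)) * x ^ (η / 2) ≤ π * x ^ (η / 2) := by
      calc _ = 1 / 2 * (x ^ (1 - η) * (x ^ (η / 2) * x ^ (η / 2))) := by ring
        _ = 1 / 2 * x := by rw [← f6]
        _ ≤ _ := f5
    exact le_of_mul_le_mul_right this hu
  have f8 : 1 ≤ x ^ (1 - η) := Real.one_le_rpow f4.le (by linarith)
  nlinarith

/-- primes which divide a number to high powers -/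
theorem few_pow (n M : ℕ) (hM0 : M ≠ 0) (Q : Finset ℕ)
    (hQ : ∀ p ∈ Q, p.Prime ∧ ∃ v : ℕ, p ^ v ∣ M ∧ n ≤ 2 * p ^ v) : n ^ Q.card ≤ 2 ^ Q.card * M := by
  have hQ' : ∀ p, ∃ v : ℕ, p ∈ Q → p ^ v ∣ M ∧ n ≤ 2 * p ^ v := by
    intro p
    by_cases h : p ∈ Q
    · obtain ⟨v, hv⟩ := (hQ p h).2
      exact ⟨v, fun _ => hv⟩
    · exact ⟨0, fun h' => absurd h' h⟩
  choose v hv using hQ'
  have h1 : ∏ p ∈ Q, p ^ v p ∣ M := by
    refine Finset.prod_dvd_of_isRelPrime ?_ fun p hp => (hv p hp).1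
    intro p hp q hq hpq
    have h2 := (Nat.coprime_primes (hQ p hp).1 (hQ q hq).1).2 hpq
    exact (Nat.coprime_iff_isRelPrime).1 (Nat.Coprime.pow _ _ h2)
  have h2 : ∏ p ∈ Q, p ^ v p ≤ M := Nat.le_of_dvd (Nat.pos_of_ne_zero hM0) h1
  have h3 : ∏ _p ∈ Q, n ≤ ∏ p ∈ Q, 2 * p ^ v p := prod_le_prod' fun p hp => (hv p hp).2
  rw [prod_const, prod_mul_distrib, prod_const] at h3
  exact h3.trans (Nat.mul_le_mul_left _ h2)

/-- the squarefree integer `s` belongs to a number `M ≤ X` which is divisible by high powers of the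
primes that do not split in the field of `√s` -/
def Occurs (n : ℕ) (X : ℝ) (s : ℤ) : Prop :=
  Squarefree s ∧ |(s : ℝ)| ≤ X ∧ ∃ M : ℕ, M ≠ 0 ∧ (M : ℝ) ≤ X ∧
    ∀ p : ℕ, p.Prime → p ≠ 2 → 2 * p ≤ n → jacobiSym s p ≠ 1 → ∃ v : ℕ, p ^ v ∣ M ∧ n ≤ 2 * p ^ v

theorem few_fields (ε : ℝ) (hε : 0 < ε) : ∃ c : ℝ, 0 < c ∧ ∃ n₀ : ℕ, ∀ n ≥ n₀, ∀ X : ℝ,
    (n : ℝ) ≤ X → X ≤ Real.exp ((n : ℝ) ^ c) → ∀ S : Finset ℤ, (∀ s ∈ S, Occurs n X s) →
      (S.card : ℝ) ≤ X ^ ε := by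
  obtain ⟨η, hη⟩ : ∃ η, η = min (ε / 13) (1 / 6) := ⟨_, rfl⟩
  have h0 : 0 < η := by rw [hη]; exact lt_min (by positivity) (by norm_num)
  have h6 : η ≤ 1 / 6 := by rw [hη]; exact min_le_right _ _
  have hηε : 13 * η ≤ ε := by
    have : η ≤ ε / 13 := by rw [hη]; exact min_le_left _ _
    linarith
  refine ⟨η / 2, by positivity, ?_⟩
  -- the conditions on `n`
  have hy : Tendsto (fun n : ℕ => n / 2) atTop atTop := Nat.tendsto_div_const_atTop (by norm_num)
  have e1 := hy.eventually (many_primes η h0 (by linarith))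
  have hyr : Tendsto (fun n : ℕ => ((n / 2 : ℕ) : ℝ)) atTop atTop :=
    tendsto_natCast_atTop_atTop.comp hy
  have hn3 : ∀ᶠ n : ℕ in atTop, (n : ℝ) ^ (η / 2) ≤ 3 * ((n / 2 : ℕ) : ℝ) ^ (η / 2) := by
    filter_upwards [eventually_ge_atTop 2] with n hn
    have h1 : (n : ℝ) ≤ 3 * ((n / 2 : ℕ) : ℝ) := by
      have : n ≤ 3 * (n / 2) := by omega
      exact_mod_cast this
    refine (Real.rpow_le_rpow (by positivity) h1 (by positivity)).trans ?_
    rw [Real.mul_rpow (by norm_num) (by positivity)]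
    refine mul_le_mul_of_nonneg_right ?_ (by positivity)
    calc (3 : ℝ) ^ (η / 2) ≤ 3 ^ (1 : ℝ) := Real.rpow_le_rpow_of_exponent_le (by norm_num) (by linarith)
      _ = 3 := Real.rpow_one 3
  have e2 : ∀ᶠ n : ℕ in atTop, 4 * (5 + 2 * (n : ℝ) ^ (η / 2)) ≤ ((n / 2 : ℕ) : ℝ) ^ η := by
    have h1 := hyr.eventually ((tendsto_rpow_atTop (show 0 < η / 2 by positivity)).eventually_ge_atTop 25)
    filter_upwards [h1, hn3, hyr.eventually (eventually_gt_atTop 0)] with n g1 g2 g3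
    have g4 : ((n / 2 : ℕ) : ℝ) ^ η = ((n / 2 : ℕ) : ℝ) ^ (η / 2) * ((n / 2 : ℕ) : ℝ) ^ (η / 2) := by
      rw [← Real.rpow_add g3]
      congr 1
      ring
    rw [g4]
    nlinarith
  have e3 : ∀ᶠ n : ℕ in atTop, (n : ℝ) ^ (η / 2) ≤ 1 / 8 * ((n / 2 : ℕ) : ℝ) ^ (1 - η) := by
    have h1 := hyr.eventually ((tendsto_rpow_atTop (show 0 < 1 - 3 * (η / 2) by linarith)).eventually_ge_atTop 24)
    filter_upwards [h1, hn3, hyr.eventually (eventually_gt_atTop 0)] with n g1 g2 g3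
    have g4 : ((n / 2 : ℕ) : ℝ) ^ (1 - η) =
        ((n / 2 : ℕ) : ℝ) ^ (η / 2) * ((n / 2 : ℕ) : ℝ) ^ (1 - 3 * (η / 2)) := by
      rw [← Real.rpow_add g3]
      congr 1
      ring
    rw [g4]
    have g5 : 0 < ((n / 2 : ℕ) : ℝ) ^ (η / 2) := by positivity
    nlinarith
  have e4 : ∀ᶠ n : ℕ in atTop, Real.exp 1 ≤ ((n / 2 : ℕ) : ℝ) ^ (1 - 2 * η) :=
    hyr.eventually ((tendsto_rpow_atTop (show 0 < 1 - 2 * η by linarith)).eventually_ge_atTop _)
  have e5 : ∀ᶠ n : ℕ in atTop, 2 ≤ (n : ℝ) ^ η :=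
    tendsto_natCast_atTop_atTop.eventually ((tendsto_rpow_atTop h0).eventually_ge_atTop 2)
  obtain ⟨n₀, hn₀⟩ := eventually_atTop.1 (e1.and (e2.and (e3.and (e4.and
    (e5.and (eventually_ge_atTop 16))))))
  refine ⟨n₀, fun n hn X hnX hX S hS => ?_⟩
  obtain ⟨f1, f2, f3, f4, f5, f6⟩ := hn₀ n hn
  have hnr : (16 : ℝ) ≤ n := by exact_mod_cast f6
  have hX16 : 16 ≤ X := hnr.trans hnX
  have hX0 : 0 < X := by linarith
  set y : ℕ := n / 2 with hydef
  have hy1 : 1 ≤ y := by omega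
  have hyr1 : (1 : ℝ) ≤ y := by exact_mod_cast hy1
  have hyr0 : (0 : ℝ) < y := by linarith
  have hyn : (y : ℝ) ≤ n := by
    have : y ≤ n := by omega
    exact_mod_cast this
  -- the exceptional primes
  have hE : ∀ s ∈ S, 4 * ((PP y).filter (fun p => jacobiSym s p ≠ 1)).card ≤ (PP y).card := by
    intro s hs
    obtain ⟨hsq, hsX, M, hM0, hMX, hM⟩ := hS s hs
    set Q := (PP y).filter (fun p => jacobiSym s p ≠ 1) with hQ
    have g1 := few_pow n M hM0 Q fun p hp => by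
      rw [hQ, mem_filter, PP, mem_filter, mem_range] at hp
      exact ⟨hp.1.2.1, hM p hp.1.2.1 hp.1.2.2 (by omega) hp.2⟩
    have g2 : (n : ℝ) ^ Q.card ≤ 2 ^ Q.card * X := by
      have : (n : ℝ) ^ Q.card ≤ 2 ^ Q.card * M := by exact_mod_cast g1
      exact this.trans (mul_le_mul_of_nonneg_left hMX (by positivity))
    have g3 : (8 : ℝ) ^ Q.card ≤ X := by
      have h8 : (16 : ℝ) ^ Q.card ≤ 2 ^ Q.card * X :=
        (pow_le_pow_left₀ (by norm_num) hnr _).trans g2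
      have h9 : (16 : ℝ) ^ Q.card = 2 ^ Q.card * 8 ^ Q.card := by
        rw [← mul_pow]
        norm_num
      rw [h9] at h8
      exact le_of_mul_le_mul_left h8 (by positivity)
    have g4 : Real.exp (Q.card : ℝ) ≤ Real.exp ((n : ℝ) ^ (η / 2)) := by
      refine le_trans ?_ hX
      refine le_trans ?_ g3
      rw [← Real.exp_one_rpow, Real.rpow_natCast]
      exact pow_le_pow_left₀ (Real.exp_pos 1).le (by linarith [Real.exp_one_lt_d9]) _
    have g5 : (Q.card : ℝ) ≤ (n : ℝ) ^ (η / 2) := Real.exp_le_exp.1 g4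
    have g6 : 4 * (Q.card : ℝ) ≤ ((PP y).card : ℝ) := by
      have : 0 ≤ (y : ℝ) ^ (1 - η) := by positivity
      linarith
    exact_mod_cast g6
  -- the exponent
  set q : ℝ := (y : ℝ) ^ (1 - 2 * η) with hq
  have hq1 : 1 < q := lt_of_lt_of_le (by linarith [Real.exp_one_gt_d9]) f4
  have hq0 : 0 < q := by linarith
  have hex : ∃ k : ℕ, 16 * X ^ 2 ≤ q ^ k := by
    obtain ⟨k, hk⟩ := pow_unbounded_of_one_lt (16 * X ^ 2) hq1
    exact ⟨k, hk.le⟩
  classical
  set k := Nat.find hex with hkdef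
  have hk : 16 * X ^ 2 ≤ q ^ k := Nat.find_spec hex
  have hk0 : k ≠ 0 := by
    intro h
    rw [h, pow_zero] at hk
    nlinarith
  obtain ⟨l, hl⟩ := Nat.exists_eq_succ_of_ne_zero hk0
  have hlt : q ^ l < 16 * X ^ 2 := by
    have := Nat.find_min hex (m := l) (by omega)
    push Not at this
    exact this
  have hkb : 4 * (k : ℝ) ≤ (y : ℝ) ^ η := by
    have g1 : Real.exp (l : ℝ) ≤ Real.exp (4 + 2 * (n : ℝ) ^ (η / 2)) := by
      have g2 : Real.exp (l : ℝ) ≤ q ^ l := by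
        rw [← Real.exp_one_rpow, Real.rpow_natCast]
        exact pow_le_pow_left₀ (Real.exp_pos 1).le f4 _
      refine (g2.trans hlt.le).trans ?_
      rw [Real.exp_add, two_mul, Real.exp_add, ← pow_two]
      refine mul_le_mul ?_ (pow_le_pow_left₀ hX0.le hX 2) (by positivity) (by positivity)
      have : (16 : ℝ) = 2 ^ 4 := by norm_num
      rw [this, show (4 : ℝ) = ((4 : ℕ) : ℝ) by norm_num, ← Real.exp_one_rpow (((4 : ℕ) : ℝ)),
        Real.rpow_natCast]
      exact pow_le_pow_left₀ (by norm_num) (by linarith [Real.exp_one_gt_d9]) 4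
    have g3 : (l : ℝ) ≤ 4 + 2 * (n : ℝ) ^ (η / 2) := Real.exp_le_exp.1 g1
    rw [hl]
    push_cast
    linarith
  -- duality
  have hcard : (y : ℝ) ^ (1 - η) ≤ ((PP y).card : ℝ) := f1
  have hD := dual (PP y) y k (fun p hp => by
      rw [PP, mem_filter, mem_range] at hp
      exact ⟨hp.2.1, hp.2.2, by omega⟩) S X (fun s hs => ⟨(hS s hs).1, (hS s hs).2.1⟩) hE (by
      refine (mul_le_mul_of_nonneg_right hk (by positivity)).trans ?_
      rw [← mul_pow]
      refine pow_le_pow_left₀ (by positivity) ?_ k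
      calc q * (4 * (k : ℝ)) ≤ q * (y : ℝ) ^ η := mul_le_mul_of_nonneg_left hkb hq0.le
        _ = (y : ℝ) ^ (1 - η) := by
            rw [hq, ← Real.rpow_add hyr0]
            congr 1
            ring
        _ ≤ _ := hcard)
  have hA : 0 < (y : ℝ) ^ (1 - η) := by positivity
  have h7 : (S.card : ℝ) * ((y : ℝ) ^ (1 - η)) ^ k ≤ 2 * ((y : ℝ) ^ η * y) ^ k := by
    refine le_trans ?_ (hD.trans ?_)
    · exact mul_le_mul_of_nonneg_left (pow_le_pow_left₀ hA.le hcard k) (by positivity)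
    · refine mul_le_mul_of_nonneg_left ?_ (by norm_num)
      exact pow_le_pow_left₀ (by positivity) (mul_le_mul_of_nonneg_right hkb hyr0.le) k
  have h8 : (y : ℝ) ^ η * y = (y : ℝ) ^ (2 * η) * (y : ℝ) ^ (1 - η) := by
    rw [← Real.rpow_add hyr0, ← Real.rpow_add_one hyr0.ne']
    congr 1
    ring
  rw [h8, mul_pow] at h7
  have h9 : (S.card : ℝ) ≤ 2 * ((y : ℝ) ^ (2 * η)) ^ k := by
    have : (S.card : ℝ) * ((y : ℝ) ^ (1 - η)) ^ k ≤
        (2 * ((y : ℝ) ^ (2 * η)) ^ k) * ((y : ℝ) ^ (1 - η)) ^ k := by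
      calc _ ≤ _ := h7
        _ = _ := by ring
    exact le_of_mul_le_mul_right this (by positivity)
  have h10 : ((y : ℝ) ^ (2 * η)) ^ k ≤ X ^ (12 * η) := by
    have g1 : (y : ℝ) ^ (2 * η) ≤ q ^ (3 * η) := by
      rw [hq, ← Real.rpow_mul hyr0.le]
      refine Real.rpow_le_rpow_of_exponent_le hyr1 ?_
      nlinarith
    have g2 : q ^ k ≤ X ^ (4 : ℝ) := by
      have g3 : q ≤ X := by
        refine le_trans ?_ hnX
        refine le_trans ?_ hyn
        calc q ≤ (y : ℝ) ^ (1 : ℝ) := by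
              rw [hq]
              exact Real.rpow_le_rpow_of_exponent_le hyr1 (by linarith)
          _ = y := Real.rpow_one _
      rw [hl, pow_succ]
      calc q ^ l * q ≤ (X * X ^ 2) * X := by
            refine mul_le_mul ?_ g3 hq0.le (by positivity)
            refine hlt.le.trans ?_
            exact mul_le_mul_of_nonneg_right hX16 (by positivity)
        _ = X ^ (4 : ℕ) := by ring
        _ = X ^ (4 : ℝ) := by
            rw [← Real.rpow_natCast]
            norm_num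
    calc ((y : ℝ) ^ (2 * η)) ^ k ≤ (q ^ (3 * η)) ^ k := pow_le_pow_left₀ (by positivity) g1 k
      _ = (q ^ k) ^ (3 * η) := by
          rw [← Real.rpow_natCast, ← Real.rpow_natCast, ← Real.rpow_mul hq0.le,
            ← Real.rpow_mul hq0.le, mul_comm]
      _ ≤ (X ^ (4 : ℝ)) ^ (3 * η) := Real.rpow_le_rpow (by positivity) g2 (by positivity)
      _ = X ^ (12 * η) := by
          rw [← Real.rpow_mul hX0.le]
          congr 1
          ring
  have h11 : 2 ≤ X ^ η := f5.trans (Real.rpow_le_rpow (by positivity) hnX h0.le)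
  calc (S.card : ℝ) ≤ 2 * ((y : ℝ) ^ (2 * η)) ^ k := h9
    _ ≤ X ^ η * X ^ (12 * η) := mul_le_mul h11 h10 (by positivity) (by positivity)
    _ = X ^ (13 * η) := by
        rw [← Real.rpow_add hX0]
        congr 1
        ring
    _ ≤ X ^ ε := Real.rpow_le_rpow_of_exponent_le (by linarith) hηε

end Pool.Agent.Q42.SF
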