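import Pool.Agent.Q42.SF.AP

set_option autoImplicit false

/-! The divisibilities for a fixed fundamental discriminant. -/

namespace Pool.Agent.Q42.SF

open Finset Filter Topology Pool.Agent.Q49.RB

theorem fund_not_square {δ : ℤ} (hδ : IsFund δ) (h1 : δ ≠ 1) : ¬ IsSquare δ := by
  rintro ⟨t, ht⟩
  rcases hδ with ⟨_, hs⟩ | ⟨D, rfl, h4, hs⟩
  · have h2 := hs t (by rw [ht])
    rw [Int.isUnit_iff] at h2
    apply h1
    rcases h2 with h | h <;> rw [ht, h] <;> norm_num
  · have ht2 : Even t := by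
      by_contra hodd
      rw [Int.not_even_iff_odd] at hodd
      have := hodd.mul hodd
      rw [← ht] at this
      exact (Int.not_even_iff_odd.2 this) ⟨2 * D, by ring⟩
    obtain ⟨u, hu⟩ := ht2
    have h3 : D = u * u := by
      have : 4 * D = 4 * (u * u) := by rw [ht, hu]; ring
      linarith
    have h5 := hs u (by rw [h3])
    rw [Int.isUnit_iff] at h5
    rcases h5 with h | h <;> rw [h] at h3 <;> omega

theorem fund_ne_zero {δ : ℤ} (hδ : IsFund δ) : δ ≠ 0 := by
  rintro rfl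
  rcases hδ with ⟨h, _⟩ | ⟨D, h, h4, _⟩
  · norm_num at h
  · have : D = 0 := by omega
    rw [this] at h4
    norm_num at h4

theorem inert_of_jac {δ : ℤ} (hδ : IsFund δ) {p : ℕ} (hp : p.Prime) (h : jacobiSym δ p = -1) :
    InertAt δ p := by
  haveI : Fact p.Prime := ⟨hp⟩
  intro x hx
  have h1 := sq_of_root hδ x hx
  rw [← jacobiSym.legendreSym.to_jacobiSym] at h
  exact (legendreSym.eq_neg_one_iff p).1 h h1

theorem jac_of_inert {δ : ℤ} (hδ : IsFund δ) {p : ℕ} (hp : p.Prime) (hp2 : p ≠ 2)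
    (h : InertAt δ p) : jacobiSym δ p = -1 := by
  haveI : Fact p.Prime := ⟨hp⟩
  rw [← jacobiSym.legendreSym.to_jacobiSym, legendreSym.eq_neg_one_iff]
  intro h1
  exact root_of_sq hδ hp hp2 h1 h

/-- the lower bound -/
theorem lower (δ : ℤ) (hδ : IsFund δ) (h1 : δ ≠ 1) (ε : ℝ) (hε : 0 < ε) :
    ∀ᶠ n : ℕ in atTop, ∀ d : ℤ, d ≠ 0 → Divis δ n d →
      Real.exp ((1 - ε) * n) ≤ |((δ * d ^ 2 : ℤ) : ℝ)| := by
  have hδ0 := fund_ne_zero hδ
  have ht := th_tendsto δ hδ0 (fund_not_square hδ h1)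
  have ht1 : Tendsto (fun n : ℕ => th δ (n - 1) / n) atTop (𝓝 (1 / 2)) := by
    have a1 := ht.comp (tendsto_sub_atTop_nat 1)
    have a2 : Tendsto (fun n : ℕ => ((n - 1 : ℕ) : ℝ) / n) atTop (𝓝 1) := by
      have a3 : Tendsto (fun n : ℕ => (1 : ℝ) - 1 / n) atTop (𝓝 (1 - 0)) :=
        tendsto_const_nhds.sub (tendsto_const_div_atTop_nhds_zero_nat 1)
      rw [sub_zero] at a3
      refine a3.congr' ?_
      filter_upwards [eventually_ge_atTop 1] with n hn
      have : (n : ℝ) ≠ 0 := by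
        have : 0 < n := hn
        positivity
      rw [Nat.cast_sub hn]
      field_simp
      simp
    have a4 := a1.mul a2
    rw [mul_one] at a4
    refine a4.congr' ?_
    filter_upwards [eventually_ge_atTop 2] with n hn
    have h3 : ((n - 1 : ℕ) : ℝ) ≠ 0 := by
      have : 0 < n - 1 := by omega
      positivity
    simp only [Function.comp_apply]
    field_simp
  have h2 : (1 - ε) / 2 < 1 / 2 := by linarith
  filter_upwards [ht1.eventually (lt_mem_nhds h2), eventually_ge_atTop 1] with n hn hn1 d hd hD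
  have hn0 : (0 : ℝ) < n := by exact_mod_cast hn1
  rw [lt_div_iff₀ hn0] at hn
  -- the product of the inert primes divides `d`
  have h3 : (∏ p ∈ IP δ (n - 1), p) ∣ d.natAbs := by
    refine Finset.prod_primes_dvd _ (fun p hp => ?_) (fun p hp => ?_)
    · exact ((mem_filter.1 hp).2.1).prime
    · have hp' := mem_filter.1 hp
      have h4 := (hD p hp'.2.1 0).1 (inert_of_jac hδ hp'.2.1 hp'.2.2.2) (by
        have := (mem_Icc.1 hp'.1).2
        simp only [zero_add, pow_one, pow_zero]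
        omega)
      rw [zero_add, pow_one] at h4
      exact Int.natCast_dvd.1 h4
  have h5 : (∏ p ∈ IP δ (n - 1), p) ≤ d.natAbs := Nat.le_of_dvd (Int.natAbs_pos.2 hd) h3
  have h6 : th δ (n - 1) = Real.log ((∏ p ∈ IP δ (n - 1), p : ℕ) : ℝ) := by
    unfold th
    push_cast
    rw [Real.log_prod]
    intro p hp
    have := (mem_filter.1 hp).2.1.pos
    positivity
  have hpos : (0 : ℝ) < ((∏ p ∈ IP δ (n - 1), p : ℕ) : ℝ) := by
    have : 0 < ∏ p ∈ IP δ (n - 1), p := prod_pos fun p hp => (mem_filter.1 hp).2.1.pos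
    exact_mod_cast this
  have h7 : Real.exp ((1 - ε) / 2 * n) ≤ |(d : ℝ)| := by
    calc Real.exp ((1 - ε) / 2 * n) ≤ Real.exp (th δ (n - 1)) := Real.exp_le_exp.2 hn.le
      _ = ((∏ p ∈ IP δ (n - 1), p : ℕ) : ℝ) := by rw [h6, Real.exp_log hpos]
      _ ≤ (d.natAbs : ℝ) := by exact_mod_cast h5
      _ = |(d : ℝ)| := by rw [Nat.cast_natAbs, Int.cast_abs]
  have h8 : Real.exp ((1 - ε) * n) = Real.exp ((1 - ε) / 2 * n) ^ 2 := by
    rw [← Real.exp_nat_mul]
    congr 1
    push_cast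
    ring
  have h9 : (1 : ℝ) ≤ |(δ : ℝ)| := by
    have : 1 ≤ |δ| := Int.one_le_abs hδ0
    exact_mod_cast this
  rw [h8]
  push_cast
  rw [abs_mul, abs_pow]
  calc Real.exp ((1 - ε) / 2 * n) ^ 2 ≤ |(d : ℝ)| ^ 2 := by gcongr
    _ ≤ |(δ : ℝ)| * |(d : ℝ)| ^ 2 := le_mul_of_one_le_left (by positivity) h9

open Classical in
/-- the primes which are not split -/
noncomputable def Bad (δ : ℤ) (n : ℕ) : Finset ℕ :=
  (Icc 1 n).filter (fun p => p.Prime ∧ (InertAt δ p ∨ (p : ℤ) ∣ δ))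

theorem mem_Bad {δ : ℤ} {n p : ℕ} : p ∈ Bad δ n ↔ p ∈ Icc 1 n ∧ p.Prime ∧
    (InertAt δ p ∨ (p : ℤ) ∣ δ) := by
  classical
  unfold Bad
  rw [mem_filter]

/-- the least possible `d`, up to small factors -/
noncomputable def DD (δ : ℤ) (n : ℕ) : ℕ := ∏ p ∈ Bad δ n, p ^ Nat.log p n

theorem DD_pos (δ : ℤ) (n : ℕ) : 0 < DD δ n :=
  prod_pos fun p hp => pow_pos (mem_Bad.1 hp).2.1.pos _

theorem DD_divis (δ : ℤ) (n : ℕ) : Divis δ n (DD δ n) := by
  have key : ∀ p k : ℕ, p.Prime → (InertAt δ p ∨ (p : ℤ) ∣ δ) → p ^ (k + 1) ≤ n →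
      (p : ℤ) ^ (k + 1) ∣ (DD δ n : ℤ) := by
    intro p k hp hb hn
    have hpn : p ≤ n := le_trans (by
      calc p = p ^ 1 := (pow_one p).symm
        _ ≤ p ^ (k + 1) := Nat.pow_le_pow_right hp.pos (by omega)) hn
    have h1 : p ∈ Bad δ n := mem_Bad.2 ⟨mem_Icc.2 ⟨hp.pos, hpn⟩, hp, hb⟩
    have h2 : k + 1 ≤ Nat.log p n := Nat.le_log_of_pow_le hp.one_lt hn
    have h3 : p ^ (k + 1) ∣ DD δ n := (pow_dvd_pow p h2).trans (dvd_prod_of_mem _ h1)
    exact_mod_cast h3
  intro p hp k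
  refine ⟨fun hi hn => key p k hp (Or.inl hi) ?_, fun hd hn => key p k hp (Or.inr hd) ?_⟩
  · exact le_trans (Nat.le_add_right _ _) hn
  · omega

theorem DD_le (δ : ℤ) (hδ : IsFund δ) (n : ℕ) (hn : 1 ≤ n) :
    Real.log (DD δ n) ≤ th δ n + (Nat.sqrt n + (2 * δ.natAbs).primeFactors.card) * Real.log n := by
  have hδ0 := fund_ne_zero hδ
  have e1 : Real.log (DD δ n) = ∑ p ∈ Bad δ n, Real.log ((p ^ Nat.log p n : ℕ) : ℝ) := by
    unfold DD
    push_cast
    rw [Real.log_prod]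
    intro p hp
    have := (mem_Bad.1 hp).2.1.pos
    positivity
  have hln : 0 ≤ Real.log n := Real.log_natCast_nonneg n
  have e2 : ∀ p ∈ Bad δ n, Real.log ((p ^ Nat.log p n : ℕ) : ℝ) ≤
      (if p ∈ IP δ n then Real.log p else 0) + ((if p ∈ Icc 1 (Nat.sqrt n) then Real.log n else 0) +
        (if p ∈ (2 * δ.natAbs).primeFactors then Real.log n else 0)) := by
    intro p hp
    obtain ⟨hpI, hpp, hb⟩ := mem_Bad.1 hp
    obtain ⟨hp1, hpn⟩ := mem_Icc.1 hpI
    have h0 : (0 : ℝ) < ((p ^ Nat.log p n : ℕ) : ℝ) := by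
      have := pow_pos hpp.pos (Nat.log p n)
      exact_mod_cast this
    have hle : Real.log ((p ^ Nat.log p n : ℕ) : ℝ) ≤ Real.log n := by
      refine Real.log_le_log h0 ?_
      exact_mod_cast Nat.pow_log_le_self p (by omega)
    have n1 : 0 ≤ (if p ∈ IP δ n then Real.log p else 0) := by
      split_ifs
      · exact Real.log_natCast_nonneg p
      · exact le_refl _
    have n2 : 0 ≤ (if p ∈ Icc 1 (Nat.sqrt n) then Real.log n else 0) := by
      split_ifs
      · exact hln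
      · exact le_refl _
    have n3 : 0 ≤ (if p ∈ (2 * δ.natAbs).primeFactors then Real.log n else 0) := by
      split_ifs
      · exact hln
      · exact le_refl _
    by_cases c1 : p ∈ (2 * δ.natAbs).primeFactors
    · rw [if_pos c1]
      linarith
    by_cases c2 : p ∈ Icc 1 (Nat.sqrt n)
    · rw [if_pos c2]
      linarith
    -- a large inert prime
    have hp2 : p ≠ 2 := by
      rintro rfl
      apply c1
      rw [Nat.mem_primeFactors]
      exact ⟨hpp, Dvd.intro _ rfl, by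
        have := Int.natAbs_ne_zero.2 hδ0
        positivity⟩
    have hpd : ¬ (p : ℤ) ∣ δ := by
      intro h
      apply c1
      rw [Nat.mem_primeFactors]
      exact ⟨hpp, Dvd.dvd.mul_left (Int.natCast_dvd.1 h) 2, by
        have := Int.natAbs_ne_zero.2 hδ0
        positivity⟩
    have hI : p ∈ IP δ n := by
      unfold IP
      rw [mem_filter]
      exact ⟨hpI, hpp, hp2, jac_of_inert hδ hpp hp2 (hb.resolve_right hpd)⟩
    have hlog : Nat.log p n ≤ 1 := by
      by_contra hcon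
      push Not at hcon
      apply c2
      rw [mem_Icc]
      refine ⟨hp1, Nat.le_sqrt.2 ?_⟩
      have h1 : p ^ 2 ≤ n := (Nat.pow_le_pow_right hpp.pos hcon).trans
        (Nat.pow_log_le_self p (by omega))
      rwa [pow_two] at h1
    have h4 : Real.log ((p ^ Nat.log p n : ℕ) : ℝ) ≤ Real.log p := by
      refine Real.log_le_log h0 ?_
      have : p ^ Nat.log p n ≤ p ^ 1 := Nat.pow_le_pow_right hpp.pos hlog
      rw [pow_one] at this
      exact_mod_cast this
    rw [if_pos hI]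
    linarith
  rw [e1]
  refine (sum_le_sum e2).trans ?_
  rw [sum_add_distrib, sum_add_distrib]
  have b1 : ∑ p ∈ Bad δ n, (if p ∈ IP δ n then Real.log p else 0) ≤ th δ n := by
    unfold th
    rw [← sum_filter]
    refine sum_le_sum_of_subset_of_nonneg (fun p hp => (mem_filter.1 hp).2) fun p _ _ =>
      Real.log_natCast_nonneg p
  have b2 : ∑ p ∈ Bad δ n, (if p ∈ Icc 1 (Nat.sqrt n) then Real.log n else 0) ≤
      Nat.sqrt n * Real.log n := by
    rw [← sum_filter, sum_const, nsmul_eq_mul]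
    refine mul_le_mul_of_nonneg_right ?_ hln
    have : (filter (fun p => p ∈ Icc 1 (Nat.sqrt n)) (Bad δ n)).card ≤ (Icc 1 (Nat.sqrt n)).card :=
      card_le_card fun p hp => (mem_filter.1 hp).2
    rw [Nat.card_Icc, Nat.add_sub_cancel] at this
    exact_mod_cast this
  have b3 : ∑ p ∈ Bad δ n, (if p ∈ (2 * δ.natAbs).primeFactors then Real.log n else 0) ≤
      (2 * δ.natAbs).primeFactors.card * Real.log n := by
    rw [← sum_filter, sum_const, nsmul_eq_mul]
    refine mul_le_mul_of_nonneg_right ?_ hln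
    exact_mod_cast card_le_card fun p hp => (mem_filter.1 hp).2
  rw [add_mul]
  linarith

/-- the upper bound -/
theorem upper (δ : ℤ) (hδ : IsFund δ) (h1 : δ ≠ 1) (ε : ℝ) (hε : 0 < ε) :
    ∀ᶠ n : ℕ in atTop, |((δ * (DD δ n : ℤ) ^ 2 : ℤ) : ℝ)| ≤ Real.exp ((1 + ε) * n) := by
  have hδ0 := fund_ne_zero hδ
  have ht := th_tendsto δ hδ0 (fund_not_square hδ h1)
  have a1 : Tendsto (fun n : ℕ => ((Nat.sqrt n + (2 * δ.natAbs).primeFactors.card) * Real.log n) / (n : ℝ)) atTop (𝓝 0) := by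
    set K : ℝ := ((2 * δ.natAbs).primeFactors.card : ℝ) with hK
    have b1 : Tendsto (fun x : ℝ => (1 + K) * (Real.log x / x ^ (1 / 2 : ℝ))) atTop (𝓝 ((1 + K) * 0)) := by
      refine Tendsto.const_mul _ ?_
      exact (isLittleO_log_rpow_atTop (by norm_num : (0 : ℝ) < 1 / 2)).tendsto_div_nhds_zero
    rw [mul_zero] at b1
    refine squeeze_zero' (Eventually.of_forall fun n => ?_) ?_ (b1.comp tendsto_natCast_atTop_atTop)
    · have := Real.log_natCast_nonneg n
      positivity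
    · filter_upwards [eventually_ge_atTop 1] with n hn
      simp only [Function.comp_apply]
      have hn0 : (0 : ℝ) < n := by exact_mod_cast hn
      have hn1 : (1 : ℝ) ≤ n := by exact_mod_cast hn
      have hl := Real.log_natCast_nonneg n
      set r : ℝ := (n : ℝ) ^ (1 / 2 : ℝ) with hr
      have hr0 : 0 < r := by positivity
      have hr1 : 1 ≤ r := Real.one_le_rpow hn1 (by norm_num)
      have hrr : r * r = n := by
        rw [hr, ← Real.rpow_add hn0]
        norm_num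
      have hs : (Nat.sqrt n : ℝ) ≤ r := by
        have : (Nat.sqrt n : ℝ) ^ 2 ≤ r ^ 2 := by
          rw [pow_two r, hrr]
          exact_mod_cast Nat.sqrt_le' n
        exact (abs_le_of_sq_le_sq' this hr0.le).2
      have hK0 : 0 ≤ K := by rw [hK]; positivity
      rw [mul_div_assoc', div_le_div_iff₀ hn0 hr0]
      have : (Nat.sqrt n : ℝ) + K ≤ (1 + K) * r := by nlinarith
      calc ((Nat.sqrt n : ℝ) + K) * Real.log n * r ≤ ((1 + K) * r) * Real.log n * r := by gcongr
        _ = (1 + K) * Real.log n * (r * r) := by ring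
        _ = (1 + K) * Real.log n * n := by rw [hrr]
  have a2 := (ht.add a1)
  rw [add_zero] at a2
  have a3 : Tendsto (fun n : ℕ => Real.log |(δ : ℝ)| / n) atTop (𝓝 0) :=
    tendsto_const_div_atTop_nhds_zero_nat _
  have a4 := (a2.const_mul 2).add a3
  rw [add_zero] at a4
  have h2 : (2 * (1 / 2) : ℝ) < 1 + ε := by linarith
  filter_upwards [a4.eventually (gt_mem_nhds h2), eventually_ge_atTop 1] with n hn hn1
  have hn0 : (0 : ℝ) < n := by exact_mod_cast hn1
  have hD0 : (0 : ℝ) < DD δ n := by exact_mod_cast DD_pos δ n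
  have hδ' : (0 : ℝ) < |(δ : ℝ)| := abs_pos.2 (by exact_mod_cast hδ0)
  have h3 := DD_le δ hδ n hn1
  have h4 : 2 * (th δ n / n + ((Nat.sqrt n + (2 * δ.natAbs).primeFactors.card) * Real.log n) / (n : ℝ)) + Real.log |(δ : ℝ)| / n =
      (2 * (th δ n + (Nat.sqrt n + (2 * δ.natAbs).primeFactors.card) * Real.log n) + Real.log |(δ : ℝ)|) / n := by
    field_simp
  rw [h4, div_lt_iff₀ hn0] at hn
  have h5 : |((δ * (DD δ n : ℤ) ^ 2 : ℤ) : ℝ)| = Real.exp (2 * Real.log (DD δ n) + Real.log |(δ : ℝ)|) := by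
    rw [Real.exp_add, Real.exp_log hδ']
    push_cast
    rw [abs_mul, abs_pow, abs_of_pos hD0, two_mul, Real.exp_add, Real.exp_log hD0]
    ring
  rw [h5]
  refine Real.exp_le_exp.2 ?_
  linarith

end Pool.Agent.Q42.SF
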