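import Pool.Agent.Q42.SF.Few
import Pool.Agent.Q42.SF.Fixed

set_option autoImplicit false

/-! The splitting fields of the Chern polynomials: few fields, few Chern classes. -/

namespace Pool.Agent.Q42.SF

open Finset Filter Topology Pool.Agent.Q49.RB

theorem sq_decomp (Δ : ℤ) (h0 : Δ ≠ 0) : ∃ s : ℤ, ∃ t : ℕ, Squarefree s ∧ t ≠ 0 ∧ Δ = s * (t : ℤ) ^ 2 := by
  obtain ⟨a, b, hab, ha⟩ := Nat.sq_mul_squarefree Δ.natAbs
  have hN0 : Δ.natAbs ≠ 0 := Int.natAbs_ne_zero.2 h0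
  have hb0 : b ≠ 0 := by
    rintro rfl
    apply hN0
    rw [← hab]
    ring
  rcases Int.natAbs_eq Δ with h | h
  · refine ⟨a, b, Int.squarefree_natCast.2 ha, hb0, ?_⟩
    rw [h, ← hab]
    push_cast
    ring
  · refine ⟨-a, b, sqf_neg (Int.squarefree_natCast.2 ha), hb0, ?_⟩
    rw [h, ← hab]
    push_cast
    ring

theorem occurs (n : ℕ) (c₁ c₂ : ℤ) (x : Fin 2 → ℂ) (hs : x 0 + x 1 = c₁) (hm : x 0 * x 1 = c₂)
    (hI : Integral n (fun _ : Fin 2 => 1) x) (s t : ℤ) (hsq : Squarefree s) (ht : t ≠ 0)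
    (hΔ : c₁ ^ 2 - 4 * c₂ = s * t ^ 2) (X : ℝ) (hX : |((c₁ ^ 2 - 4 * c₂ : ℤ) : ℝ)| ≤ X) :
    Occurs n X s := by
  have hs0 : s ≠ 0 := hsq.ne_zero
  have hΔ0 : c₁ ^ 2 - 4 * c₂ ≠ 0 := by
    rw [hΔ]
    exact mul_ne_zero hs0 (pow_ne_zero 2 ht)
  refine ⟨hsq, ?_, (c₁ ^ 2 - 4 * c₂).natAbs, Int.natAbs_ne_zero.2 hΔ0, ?_, ?_⟩
  · refine le_trans ?_ hX
    rw [hΔ]
    push_cast
    rw [abs_mul]
    refine le_mul_of_one_le_right (abs_nonneg _) ?_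
    have h1 : (1 : ℤ) ≤ t ^ 2 := by
      have := pow_pos (abs_pos.2 ht) 2
      rw [sq_abs] at this
      exact this
    have h2 : (1 : ℝ) ≤ (t : ℝ) ^ 2 := by exact_mod_cast h1
    rwa [abs_of_nonneg (by positivity)]
  · rw [Nat.cast_natAbs, Int.cast_abs]
    exact hX
  · obtain ⟨σ, i, m, t₀, hσ, hi, hodd, hm', ht₀, hs'⟩ := decomp s hs0
    have ht1 : (t₀ : ℤ) ^ 2 = 1 := by
      have h1 : IsUnit (t₀ : ℤ) := hsq _ ⟨σ * 2 ^ i * m, by rw [hs']; ring⟩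
      rw [Int.isUnit_iff] at h1
      rcases h1 with h | h <;> rw [h] <;> norm_num
    rw [ht1, mul_one] at hs'
    intro p hp hp2 hpn hj
    rw [hs'] at hj
    refine big n c₁ c₂ x hs hm hI σ i m t.natAbs hσ hodd hm' (Int.natAbs_ne_zero.2 ht) ?_ p hp hp2
      hj (Or.inl hpn)
    rw [hΔ, hs', Int.natCast_natAbs, sq_abs]

/-- the pair `c₁`, `c₂` passes Schwarzenberger's condition (for some, equivalently all, roots) -/
def Sch (n : ℕ) (c₁ c₂ : ℤ) : Prop :=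
  ∃ x : Fin 2 → ℂ, x 0 + x 1 = c₁ ∧ x 0 * x 1 = c₂ ∧ Integral n (fun _ : Fin 2 => 1) x

/-- there are no fields, apart from the rational one, below `n` -/
theorem none_below : ∃ n₀ : ℕ, ∀ n ≥ n₀, ∀ c₁ c₂ : ℤ, Sch n c₁ c₂ →
    |((c₁ ^ 2 - 4 * c₂ : ℤ) : ℝ)| < n → IsSquare (c₁ ^ 2 - 4 * c₂) := by
  obtain ⟨n0, hn0⟩ := T1num 1 one_pos
  refine ⟨max n0 1, fun n hn c₁ c₂ hS hlt => ?_⟩
  by_contra hsq
  obtain ⟨x, hs, hm, hI⟩ := hS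
  have h1 := hn0 n (le_trans (le_max_left _ _) hn) c₁ c₂ x hs hm hI hsq
  have hn1 : (1 : ℝ) ≤ n := by exact_mod_cast le_trans (le_max_right _ _) hn
  have h2 : (n : ℝ) ≤ (n : ℝ) ^ (4 * Real.exp (1 / 2) - 1) := by
    calc (n : ℝ) = (n : ℝ) ^ (1 : ℝ) := (Real.rpow_one _).symm
      _ ≤ _ := Real.rpow_le_rpow_of_exponent_le hn1 (by
        have := exp_half_bounds.1
        linarith)
  linarith

/-- **few fields** -/
theorem fields (ε : ℝ) (hε : 0 < ε) : ∃ c : ℝ, 0 < c ∧ ∃ n₀ : ℕ, ∀ n ≥ n₀, ∀ X : ℝ,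
    1 ≤ X → X ≤ Real.exp ((n : ℝ) ^ c) → ∀ S : Finset ℤ,
      (∀ s ∈ S, Squarefree s ∧ ∃ c₁ c₂ t : ℤ, Sch n c₁ c₂ ∧ t ≠ 0 ∧ c₁ ^ 2 - 4 * c₂ = s * t ^ 2 ∧
        |((c₁ ^ 2 - 4 * c₂ : ℤ) : ℝ)| ≤ X) → (S.card : ℝ) ≤ X ^ ε := by
  obtain ⟨c, hc, n0, hn0⟩ := few_fields ε hε
  obtain ⟨n1, hn1⟩ := none_below
  refine ⟨c, hc, max n0 n1, fun n hn X hX1 hXn S hS => ?_⟩
  by_cases hnX : (n : ℝ) ≤ X
  · refine hn0 n (le_trans (le_max_left _ _) hn) X hnX hXn S fun s hs => ?_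
    obtain ⟨hsq, c₁, c₂, t, ⟨x, h1, h2, hI⟩, ht, hΔ, hX⟩ := hS s hs
    exact occurs n c₁ c₂ x h1 h2 hI s t hsq ht hΔ X hX
  · push Not at hnX
    have h1 : S ⊆ {1} := by
      intro s hs
      obtain ⟨hsq, c₁, c₂, t, hSch, ht, hΔ, hX⟩ := hS s hs
      have h2 := hn1 n (le_trans (le_max_right _ _) hn) c₁ c₂ hSch (lt_of_le_of_lt hX hnX)
      rw [hΔ] at h2
      rw [mem_singleton]
      have h3 : IsSquare (s * 1) := by
        rw [mul_one]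
        obtain ⟨r, hr⟩ := h2
        have h4 : t ^ 2 ∣ r ^ 2 := ⟨s, by rw [pow_two r, ← hr]; ring⟩
        obtain ⟨q, hq⟩ := (Int.pow_dvd_pow_iff two_ne_zero).1 h4
        refine ⟨q, ?_⟩
        have h5 : t ^ 2 * s = t ^ 2 * (q * q) := by
          rw [mul_comm, hr, hq]
          ring
        exact mul_left_cancel₀ (pow_ne_zero 2 ht) h5
      exact eq_of_sq s 1 hsq squarefree_one h3
    have h2 := card_le_card h1
    rw [card_singleton] at h2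
    have h3 : (S.card : ℝ) ≤ 1 := by exact_mod_cast h2
    exact h3.trans (Real.one_le_rpow hX1 hε.le)

/-- **few Chern classes** -/
theorem classes (ε : ℝ) (hε : 0 < ε) : ∃ c : ℝ, 0 < c ∧ ∃ n₀ : ℕ, ∀ n ≥ n₀, ∀ X : ℝ,
    1 ≤ X → X ≤ Real.exp ((n : ℝ) ^ c) → ∀ (c₁ : ℤ) (T : Finset ℤ),
      (∀ c₂ ∈ T, Sch n c₁ c₂ ∧ c₁ ^ 2 - 4 * c₂ ≠ 0 ∧ |((c₁ ^ 2 - 4 * c₂ : ℤ) : ℝ)| ≤ X) →
        (T.card : ℝ) ≤ X ^ (1 / 2 + ε) := by
  classical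
  obtain ⟨c, hc, n0, hn0⟩ := fields ε hε
  refine ⟨c, hc, n0, fun n hn X hX1 hXn c₁ T hT => ?_⟩
  have hdec : ∀ c₂ : ℤ, ∃ (s : ℤ) (t : ℕ), c₁ ^ 2 - 4 * c₂ ≠ 0 →
      Squarefree s ∧ t ≠ 0 ∧ c₁ ^ 2 - 4 * c₂ = s * (t : ℤ) ^ 2 := by
    intro c₂
    by_cases h : c₁ ^ 2 - 4 * c₂ = 0
    · exact ⟨0, 0, fun h' => absurd h h'⟩
    · obtain ⟨s, t, h1, h2, h3⟩ := sq_decomp _ h
      exact ⟨s, t, fun _ => ⟨h1, h2, h3⟩⟩
  choose s t hst using hdec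
  set S : Finset ℤ := T.image s with hS
  have hcard : (S.card : ℝ) ≤ X ^ ε := by
    refine hn0 n hn X hX1 hXn S fun s' hs' => ?_
    obtain ⟨c₂, hc₂, rfl⟩ := mem_image.1 hs'
    obtain ⟨h1, h2, h3⟩ := hT c₂ hc₂
    obtain ⟨h4, h5, h6⟩ := hst c₂ h2
    exact ⟨h4, c₁, c₂, t c₂, h1, by exact_mod_cast h5, h6, h3⟩
  have hinj : T.card ≤ (S ×ˢ Icc 1 ⌊Real.sqrt X⌋₊).card := by
    refine card_le_card_of_injOn (fun c₂ => (s c₂, t c₂)) ?_ ?_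
    · intro c₂ hc₂
      have hc₂' : c₂ ∈ T := hc₂
      obtain ⟨h1, h2, h3⟩ := hT c₂ hc₂'
      obtain ⟨h4, h5, h6⟩ := hst c₂ h2
      rw [mem_coe, mem_product, mem_Icc]
      refine ⟨mem_image_of_mem s hc₂', Nat.one_le_iff_ne_zero.2 h5, Nat.le_floor ?_⟩
      refine Real.le_sqrt_of_sq_le ?_
      refine le_trans ?_ h3
      rw [h6]
      push_cast
      rw [abs_mul]
      have h7 : (1 : ℝ) ≤ |(s c₂ : ℝ)| := by
        have := Int.one_le_abs h4.ne_zero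
        exact_mod_cast this
      rw [abs_of_nonneg (by positivity : (0 : ℝ) ≤ (t c₂ : ℝ) ^ 2)]
      exact le_mul_of_one_le_left (by positivity) h7
    · intro a ha b hb hab
      have ha' : a ∈ T := ha
      have hb' : b ∈ T := hb
      obtain ⟨-, h2, -⟩ := hT a ha'
      obtain ⟨-, h3, -⟩ := hT b hb'
      have e1 := (hst a h2).2.2
      have e2 := (hst b h3).2.2
      have hab' := Prod.mk.inj hab
      rw [hab'.1, hab'.2] at e1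
      rw [← e2] at e1
      linarith
  have hX0 : 0 < X := by linarith
  have h1 : (T.card : ℝ) ≤ S.card * ⌊Real.sqrt X⌋₊ := by
    have := hinj
    rw [card_product, Nat.card_Icc, Nat.add_sub_cancel] at this
    exact_mod_cast this
  calc (T.card : ℝ) ≤ S.card * ⌊Real.sqrt X⌋₊ := h1
    _ ≤ X ^ ε * X ^ (1 / 2 : ℝ) := by
      rw [← Real.sqrt_eq_rpow]
      exact mul_le_mul hcard (Nat.floor_le (Real.sqrt_nonneg X)) (Nat.cast_nonneg _) (by positivity)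
    _ = X ^ (1 / 2 + ε) := by
      rw [← Real.rpow_add hX0]
      congr 1
      ring

end Pool.Agent.Q42.SF
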