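import Pool.Agent.Q42.SF.Char
import Pool.Agent.Cov.PrimesAP
import Pool.Agent.Q49.RB.Law8

set_option autoImplicit false

/-! Half of the primes are inert in a given quadratic field. -/

namespace Pool.Agent.Q42.SF

open Finset Filter Topology ArithmeticFunction Pool.Agent.Q49.RB

theorem char_sum_tendsto {M : ℕ} [NeZero M] (χ : DirichletCharacter ℂ M) (hχ : χ ≠ 1) :
    Tendsto (fun x : ℝ => (∑ k ∈ Icc 1 ⌊x⌋₊, vonMangoldt k * (χ (k : ZMod M)).re) / x) atTop
      (𝓝 0) := by
  have h1 : ∀ x : ℝ, (∑ k ∈ Icc 1 ⌊x⌋₊, vonMangoldt k * (χ (k : ZMod M)).re) / x =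
      ∑ a : ZMod M, (χ a).re * ((∑ k ∈ Icc 1 ⌊x⌋₊, vonMangoldt.residueClass a k) / x) := by
    intro x
    have h2 : ∀ k : ℕ, vonMangoldt k * (χ (k : ZMod M)).re =
        ∑ a : ZMod M, (χ a).re * vonMangoldt.residueClass a k := by
      intro k
      rw [sum_eq_single (k : ZMod M)]
      · unfold vonMangoldt.residueClass
        rw [Set.indicator_of_mem (by simp)]
        ring
      · intro b _ hb
        unfold vonMangoldt.residueClass
        rw [Set.indicator_of_notMem (by simpa using fun h => hb h.symm), mul_zero]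
      · intro h
        exact absurd (mem_univ _) h
    rw [sum_congr rfl fun k _ => h2 k, sum_comm, sum_div]
    refine sum_congr rfl fun a _ => ?_
    rw [mul_div_assoc', mul_sum]
  simp_rw [h1]
  have h3 : ∀ a : ZMod M, Tendsto (fun x : ℝ => (χ a).re *
      ((∑ k ∈ Icc 1 ⌊x⌋₊, vonMangoldt.residueClass a k) / x)) atTop
        (𝓝 ((χ a).re * ((M.totient : ℝ)⁻¹))) := by
    intro a
    by_cases ha : IsUnit a
    · exact (Pool.Agent.Cov.PNT.pnt_residueClass ha).const_mul _
    · rw [MulChar.map_nonunit χ ha]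
      simp
  have h4 := tendsto_finsetSum (univ : Finset (ZMod M)) fun a _ => h3 a
  have h5 : ∑ a : ZMod M, (χ a).re * ((M.totient : ℝ)⁻¹) = 0 := by
    rw [← sum_mul, ← Complex.re_sum, MulChar.sum_eq_zero_of_ne_one hχ]
    simp
  rwa [h5] at h4

/-- the odd primes up to `n` which are inert -/
noncomputable def IP (δ : ℤ) (n : ℕ) : Finset ℕ :=
  (Icc 1 n).filter (fun p => p.Prime ∧ p ≠ 2 ∧ jacobiSym δ p = -1)

/-- the logarithm of their product -/
noncomputable def th (δ : ℤ) (n : ℕ) : ℝ := ∑ p ∈ IP δ n, Real.log p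

theorem psi_eq (n : ℕ) : Chebyshev.psi n = ∑ k ∈ Icc 1 n, vonMangoldt k := by
  unfold Chebyshev.psi
  rw [Nat.floor_natCast]
  rfl

theorem theta_eq (n : ℕ) : Chebyshev.theta n = ∑ k ∈ Icc 1 n, if k.Prime then Real.log k else 0 := by
  unfold Chebyshev.theta
  rw [Nat.floor_natCast, sum_filter]
  rfl

theorem th_error (δ : ℤ) (hδ : δ ≠ 0) (M : ℕ) [NeZero M] (χ : DirichletCharacter ℂ M)
    (h0 : ∀ k : ℕ, ¬ Odd k → χ (k : ZMod M) = 0)
    (h1 : ∀ k : ℕ, Odd k → ((jacobiSym δ k : ℤ) : ℂ) = χ (k : ZMod M)) (n : ℕ) :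
    |2 * th δ n - Chebyshev.theta n + ∑ k ∈ Icc 1 n, vonMangoldt k * (χ (k : ZMod M)).re| ≤
      (Chebyshev.psi n - Chebyshev.theta n) +
        ∑ p ∈ (2 * δ.natAbs).primeFactors, Real.log p := by
  have e1 : th δ n = ∑ k ∈ Icc 1 n, if (k.Prime ∧ k ≠ 2 ∧ jacobiSym δ k = -1) then Real.log k
      else 0 := by
    unfold th IP
    rw [sum_filter]
  have e2 : ∑ p ∈ (2 * δ.natAbs).primeFactors, Real.log p ≥
      ∑ k ∈ Icc 1 n, if (k.Prime ∧ k ∣ 2 * δ.natAbs) then Real.log k else 0 := by
    rw [← sum_filter]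
    refine sum_le_sum_of_subset_of_nonneg ?_ ?_
    · intro p hp
      rw [mem_filter] at hp
      rw [Nat.mem_primeFactors]
      exact ⟨hp.2.1, hp.2.2, by
        have := Int.natAbs_ne_zero.2 hδ
        positivity⟩
    · intro p hp _
      exact Real.log_natCast_nonneg p
  refine le_trans ?_ (add_le_add_right e2 _)
  rw [e1, theta_eq, psi_eq, mul_sum, ← sum_sub_distrib, ← sum_sub_distrib, ← sum_add_distrib,
    ← sum_add_distrib]
  refine (abs_sum_le_sum_abs _ _).trans (sum_le_sum fun k hk => ?_)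
  have hk1 : 1 ≤ k := (mem_Icc.1 hk).1
  have hl : 0 ≤ Real.log k := Real.log_natCast_nonneg k
  have hχ1 : |(χ (k : ZMod M)).re| ≤ 1 := (Complex.abs_re_le_norm _).trans
    (DirichletCharacter.norm_le_one _ _)
  by_cases hp : k.Prime
  · rw [if_pos hp, vonMangoldt_apply_prime hp]
    by_cases hk2 : k = 2
    · subst hk2
      rw [if_neg (by simp), h0 2 (by decide), if_pos ⟨Nat.prime_two, Dvd.intro _ rfl⟩]
      simp only [Complex.zero_re, mul_zero, zero_sub, add_zero, sub_self, zero_add, abs_neg]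
      rw [abs_of_nonneg hl]
    · have hodd : Odd k := hp.odd_of_ne_two hk2
      have hre : (χ (k : ZMod M)).re = (jacobiSym δ k : ℝ) := by
        rw [← h1 k hodd]
        simp
      rw [hre]
      rcases jacobiSym.trichotomy δ k with h | h | h
      · have hd : k ∣ 2 * δ.natAbs := by
          haveI : NeZero k := ⟨hp.ne_zero⟩
          have h2 := (jacobiSym.eq_zero_iff_not_coprime).1 h
          have h3 : ¬ Nat.Coprime δ.natAbs k := by
            intro h5
            apply h2
            rw [Int.gcd_eq_natAbs, Int.natAbs_natCast]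
            exact h5
          have h4 : k ∣ δ.natAbs := by
            by_contra hcon
            exact h3 (((Nat.Prime.coprime_iff_not_dvd hp).2 hcon).symm)
          exact Dvd.dvd.mul_left h4 2
        rw [if_neg (by rw [h]; simp), if_pos ⟨hp, hd⟩, h]
        simp only [mul_zero, zero_sub, Int.cast_zero, add_zero, sub_self, zero_add, abs_neg]
        rw [abs_of_nonneg hl]
      · rw [if_neg (by rw [h]; norm_num), h]
        simp only [mul_zero, zero_sub, Int.cast_one, mul_one, neg_add_cancel, abs_zero, sub_self,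
          zero_add]
        split_ifs
        · exact hl
        · exact le_refl _
      · rw [if_pos ⟨hp, hk2, h⟩, h]
        have : 2 * Real.log k - Real.log k + Real.log k * ((-1 : ℤ) : ℝ) = 0 := by
          push_cast
          ring
        rw [this, abs_zero, sub_self, zero_add]
        split_ifs
        · exact hl
        · exact le_refl _
  · rw [if_neg hp, if_neg (fun h => hp h.1), if_neg (fun h => hp h.1)]
    simp only [mul_zero, sub_zero, zero_add, add_zero]
    rw [abs_mul, abs_of_nonneg vonMangoldt_nonneg]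
    exact mul_le_of_le_one_right vonMangoldt_nonneg hχ1

/-- **Half of the primes are inert.** -/
theorem th_tendsto (δ : ℤ) (hδ : δ ≠ 0) (hsq : ¬ IsSquare δ) :
    Tendsto (fun n : ℕ => th δ n / n) atTop (𝓝 (1 / 2)) := by
  obtain ⟨M, hM, χ, hχ, -, h0, h1⟩ := jacobi_char δ hδ hsq
  have a1 : Tendsto (fun n : ℕ => (∑ k ∈ Icc 1 n, vonMangoldt k * (χ (k : ZMod M)).re) / n) atTop
      (𝓝 0) := by
    have := (char_sum_tendsto χ hχ).comp tendsto_natCast_atTop_atTop
    refine this.congr fun n => ?_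
    simp only [Function.comp_apply, Nat.floor_natCast]
  have a2 : Tendsto (fun n : ℕ => Chebyshev.theta n / n) atTop (𝓝 1) :=
    Pool.Agent.Cov.PNT.theta_div_tendsto.comp tendsto_natCast_atTop_atTop
  have a3 : Tendsto (fun n : ℕ => (Chebyshev.psi n - Chebyshev.theta n) / n) atTop (𝓝 0) :=
    Pool.Agent.Cov.psi_theta_tendsto.comp tendsto_natCast_atTop_atTop
  have a4 : Tendsto (fun n : ℕ => (∑ p ∈ (2 * δ.natAbs).primeFactors, Real.log p) / (n : ℝ)) atTop
      (𝓝 0) := tendsto_const_div_atTop_nhds_zero_nat _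
  have a5 := a3.add a4
  rw [add_zero] at a5
  -- the error
  have a6 : Tendsto (fun n : ℕ => (2 * th δ n - Chebyshev.theta n +
      ∑ k ∈ Icc 1 n, vonMangoldt k * (χ (k : ZMod M)).re) / n) atTop (𝓝 0) := by
    refine squeeze_zero_norm (fun n => ?_) a5
    rw [Real.norm_eq_abs, abs_div, Nat.abs_cast, ← add_div]
    exact div_le_div_of_nonneg_right (th_error δ hδ M χ h0 h1 n) (Nat.cast_nonneg n)
  have a7 := ((a6.sub a1).add a2).const_mul (1 / 2)
  have e : (1 / 2 : ℝ) * (0 - 0 + 1) = 1 / 2 := by norm_num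
  rw [e] at a7
  refine a7.congr fun n => ?_
  ring

end Pool.Agent.Q42.SF
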