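import Mathlib
import Pool.Agent.H960R2.VB.Defs

/-!
# Chern classes of the rank two bundles on `P^n` and Schwarzenberger's condition
-/

set_option autoImplicit false

namespace Pool.Agent.Q42.SF.B

open MvPolynomial H960VB

/-- the space of the global sections of `E(d)` -/
noncomputable def sections {n : ℕ} (E : Bundle2 n) (d : ℤ) :
    Submodule ℂ (Fin E.a → MvPolynomial (Fin (n + 1)) ℂ) where
  carrier := {G | E.IsSection d G}
  zero_mem' := by
    refine ⟨fun i => Or.inl rfl, fun x _ => ?_⟩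
    have : evv (0 : Fin E.a → MvPolynomial (Fin (n + 1)) ℂ) x = 0 := by
      funext i
      simp [evv]
    rw [this]
    exact zero_mem _
  add_mem' := by
    intro G G' hG hG'
    refine ⟨fun i => ?_, fun x hx => ?_⟩
    · rcases hG.1 i with h | ⟨k, hk, h⟩
      · rw [Pi.add_apply, h, zero_add]
        exact hG'.1 i
      · rcases hG'.1 i with h' | ⟨k', hk', h'⟩
        · rw [Pi.add_apply, h', add_zero]
          exact Or.inr ⟨k, hk, h⟩
        · have : k = k' := by exact_mod_cast hk.trans hk'.symm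
          subst this
          exact Or.inr ⟨k, hk, h.add h'⟩
    · have : evv (G + G') x = evv G x + evv G' x := by
        funext i
        simp [evv]
      rw [this]
      exact add_mem (hG.2 x hx) (hG'.2 x hx)
  smul_mem' := by
    intro c G hG
    refine ⟨fun i => ?_, fun x hx => ?_⟩
    · rcases hG.1 i with h | ⟨k, hk, h⟩
      · left
        rw [Pi.smul_apply, h, smul_zero]
      · right
        refine ⟨k, hk, ?_⟩
        rw [Pi.smul_apply, MvPolynomial.smul_eq_C_mul]
        simpa using (isHomogeneous_C (Fin (n + 1)) c).mul h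
    · have : evv (c • G) x = c • evv G x := by
        funext i
        simp [evv]
      rw [this]
      exact Submodule.smul_mem _ c (hG.2 x hx)

/-- the binomial coefficient `x (x - 1) ⋯ (x - m + 1) / m!` of a complex number `x` -/
noncomputable def binomial (x : ℂ) (m : ℕ) : ℂ :=
  (∏ i ∈ Finset.range m, (x - i)) / (m.factorial : ℂ)

/-- `c₁`, `c₂` are the Chern classes of `E` (more precisely `c₁ h`, `c₂ h²`, with the hyperplane
class `h`), in terms of the Euler characteristics: `χ(E(d)) = h⁰(E(d))` for large `d`, and by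
Hirzebruch-Riemann-Roch `χ(E(d))` is the sum of the binomial coefficients `(n + d + δ_i, n)`, with
the Chern roots `δ₁`, `δ₂`. -/
def HasChernClasses {n : ℕ} (E : Bundle2 n) (c₁ c₂ : ℤ) : Prop :=
  ∃ δ₁ δ₂ : ℂ, δ₁ + δ₂ = c₁ ∧ δ₁ * δ₂ = c₂ ∧ ∃ d₀ : ℤ, ∀ d ≥ d₀,
    (Module.finrank ℂ (sections E d) : ℂ) = binomial (n + d + δ₁) n + binomial (n + d + δ₂) n

/-- Schwarzenberger's condition for `c₁`, `c₂` on `P^n`: by Hirzebruch-Riemann-Roch, the Euler
characteristics of the twists of a bundle of rank two with these Chern classes are integers -/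
def Schwarzenberger (n : ℕ) (c₁ c₂ : ℤ) : Prop :=
  ∀ δ₁ δ₂ : ℂ, δ₁ + δ₂ = c₁ → δ₁ * δ₂ = c₂ → ∀ d : ℤ, ∃ z : ℤ,
    binomial (n + d + δ₁) n + binomial (n + d + δ₂) n = z

/-- `δ = 1`, or `δ` is the discriminant of a quadratic field -/
def Fundamental (δ : ℤ) : Prop :=
  (δ % 4 = 1 ∧ Squarefree δ) ∨ ∃ D : ℤ, δ = 4 * D ∧ (D % 4 = 2 ∨ D % 4 = 3) ∧ Squarefree D

end Pool.Agent.Q42.SF.B
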