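import Mathlib
import Pool.Agent.Q49.RB.Law8
import Pool.Agent.Q49.RB.Event
import Pool.Agent.Q42.SF.Fin
import Pool.Agent.Q42.SF.BDefs

/-!
# The rank two bundles satisfy Schwarzenberger's condition
-/

set_option autoImplicit false

namespace Pool.Agent.Q42.SF.B

open MvPolynomial H960VB Filter

theorem bin_eq (x : ℂ) (n : ℕ) : binomial x n = Pool.Agent.Q49.RB.bin x n := rfl

theorem sch (n : ℕ) (c₁ c₂ : ℤ) (h : Schwarzenberger n c₁ c₂) : Pool.Agent.Q42.SF.Sch n c₁ c₂ := by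
  obtain ⟨r, hr⟩ : ∃ r : ℂ, r ^ 2 = ((c₁ ^ 2 - 4 * c₂ : ℤ) : ℂ) :=
    IsAlgClosed.exists_pow_nat_eq _ (by norm_num)
  push_cast at hr
  refine ⟨![(c₁ + r) / 2, (c₁ - r) / 2], ?_, ?_, ?_⟩
  · simp only [Matrix.cons_val_zero, Matrix.cons_val_one]
    ring
  · simp only [Matrix.cons_val_zero, Matrix.cons_val_one]
    linear_combination (-1 / 4 : ℂ) * hr
  · intro k
    obtain ⟨z, hz⟩ := h ((c₁ + r) / 2) ((c₁ - r) / 2) (by ring)
      (by linear_combination (-1 / 4 : ℂ) * hr) (k - n)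
    refine ⟨z, ?_⟩
    rw [Fin.sum_univ_two]
    simp only [Matrix.cons_val_zero, Matrix.cons_val_one, Int.cast_one, one_mul]
    rw [bin_eq, bin_eq] at hz
    push_cast at hz
    have e1 : (n : ℂ) + ((k : ℂ) - n) + (c₁ + r) / 2 = k + (c₁ + r) / 2 := by ring
    have e2 : (n : ℂ) + ((k : ℂ) - n) + (c₁ - r) / 2 = k + (c₁ - r) / 2 := by ring
    rw [e1, e2] at hz
    exact hz

theorem schw_of_divis (n : ℕ) (δ c₁ c₂ d : ℤ) (hδ : Fundamental δ)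
    (hΔ : c₁ ^ 2 - 4 * c₂ = δ * d ^ 2) (h : Pool.Agent.Q49.RB.Divis δ n d) :
    Schwarzenberger n c₁ c₂ := by
  intro δ₁ δ₂ hs hm d'
  obtain ⟨z, hz⟩ := (Pool.Agent.Q49.RB.law n hδ c₁ c₂ d hΔ ![δ₁, δ₂] (by simpa using hs)
    (by simpa using hm)).2 h (n + d')
  refine ⟨z, ?_⟩
  rw [Fin.sum_univ_two] at hz
  simp only [Matrix.cons_val_zero, Matrix.cons_val_one, Int.cast_one, one_mul] at hz
  rw [bin_eq, bin_eq]
  push_cast at hz
  exact hz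

theorem of_bundle (n : ℕ) (E : Bundle2 n) (c₁ c₂ : ℤ) (hE : HasChernClasses E c₁ c₂) :
    Schwarzenberger n c₁ c₂ := by
  obtain ⟨δ₁, δ₂, hs, hm, d₀, hd⟩ := hE
  have hI : Pool.Agent.Q49.RB.Integral n (fun _ : Fin 2 => 1) ![δ₁, δ₂] := by
    refine Pool.Agent.Q49.RB.integral_of_large n _ _ (d₀ + n) fun k hk => ?_
    refine ⟨Module.finrank ℂ (sections E (k - n)), ?_⟩
    have h1 := hd (k - n) (by omega)
    push_cast at h1 ⊢
    rw [h1, Fin.sum_univ_two]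
    simp only [Matrix.cons_val_zero, Matrix.cons_val_one, one_mul]
    rw [bin_eq, bin_eq]
    have e1 : (n : ℂ) + ((k : ℂ) - n) + δ₁ = k + δ₁ := by ring
    have e2 : (n : ℂ) + ((k : ℂ) - n) + δ₂ = k + δ₂ := by ring
    rw [e1, e2]
  obtain ⟨δ, d, hδ, hΔ⟩ := Pool.Agent.Q49.RB.exists_fund c₁ c₂
  exact schw_of_divis n δ c₁ c₂ d hδ hΔ
    ((Pool.Agent.Q49.RB.law n hδ c₁ c₂ d hΔ ![δ₁, δ₂] (by simpa using hs) (by simpa using hm)).1 hI)

end Pool.Agent.Q42.SF.B
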