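import Pool.Agent.Q49.RB.T1

set_option autoImplicit false

/-! Sums of Jacobi symbols over intervals. -/

namespace Pool.Agent.Q42.SF

open Finset Pool.Agent.Q49.RB

theorem sum_char_range {N : ℕ} [NeZero N] (χ : DirichletCharacter ℂ N) (hχ : χ ≠ 1) (Y : ℕ) :
    ‖∑ k ∈ range Y, χ (k : ZMod N)‖ ≤ N := by
  induction Y using Nat.strong_induction_on with
  | _ Y ih =>
    by_cases hY : Y < N
    · refine (norm_sum_le _ _).trans ?_
      refine (sum_le_card_nsmul _ _ 1 fun n _ => DirichletCharacter.norm_le_one _ _).trans ?_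
      rw [card_range, nsmul_eq_mul, mul_one]
      exact_mod_cast hY.le
    · push Not at hY
      obtain ⟨Z, rfl⟩ := Nat.exists_eq_add_of_le hY
      have h0 : ∑ k ∈ range N, χ (k : ZMod N) = 0 := by
        have h1 := MulChar.sum_eq_zero_of_ne_one hχ
        rw [← h1]
        refine sum_bij' (fun k _ => (k : ZMod N)) (fun x _ => x.val) ?_ ?_ ?_ ?_ ?_
        · intro k _
          exact mem_univ _
        · intro x _
          exact mem_range.2 (ZMod.val_lt x)
        · intro k hk
          exact ZMod.val_cast_of_lt (mem_range.1 hk)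
        · intro x _
          exact ZMod.natCast_zmod_val x
        · intro k _
          rfl
      rw [sum_range_add, h0, zero_add]
      have h2 : ∀ k ∈ range Z, χ ((N + k : ℕ) : ZMod N) = χ (k : ZMod N) := by
        intro k _
        push_cast
        rw [ZMod.natCast_self, zero_add]
      rw [sum_congr rfl h2]
      exact ih Z (by have := NeZero.pos N; omega)

theorem jacobi_char (D : ℤ) (hD : D ≠ 0) (hsq : ¬ IsSquare D) :
    ∃ (M : ℕ) (_ : NeZero M) (χ : DirichletCharacter ℂ M), χ ≠ 1 ∧ M ≤ 8 * D.natAbs ∧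
      (∀ k : ℕ, ¬ Odd k → χ (k : ZMod M) = 0) ∧
      ∀ k : ℕ, Odd k → ((jacobiSym D k : ℤ) : ℂ) = χ (k : ZMod M) := by
  obtain ⟨σ, i, m, t, hσ, hi, hodd, hm, ht, rfl⟩ := decomp D hD
  have hm0 : m ≠ 0 := by
    rintro rfl
    exact absurd hodd (by decide)
  have hmz : NeZero m := ⟨hm0⟩
  obtain ⟨ψ, hψ⟩ := rec σ hσ i m hodd
  have hs1 : σ * 2 ^ i * (m : ℤ) ≠ 1 := by
    intro h
    apply hsq
    rw [h, one_mul]
    exact ⟨t, by ring⟩
  have hne := chi_ne_one m ψ hodd hm σ hσ i hi hs1 hψ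
  have hM0 : 8 * m * t ≠ 0 := by positivity
  have hMz : NeZero (8 * m * t) := ⟨hM0⟩
  have hdvd : 8 * m ∣ 8 * m * t := dvd_mul_right _ _
  refine ⟨8 * m * t, hMz, DirichletCharacter.changeLevel hdvd (chi m ψ), ?_, ?_, ?_, ?_⟩
  · intro h
    exact hne ((DirichletCharacter.changeLevel_eq_one_iff hdvd).1 h)
  · have h1 : (σ * 2 ^ i * m * (t : ℤ) ^ 2).natAbs = 2 ^ i * m * t ^ 2 := by
      rw [Int.natAbs_mul, Int.natAbs_mul, Int.natAbs_mul, Int.natAbs_pow, Int.natAbs_pow]
      have : σ.natAbs = 1 := by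
        rcases hσ with h | h <;> rw [h] <;> rfl
      rw [this, one_mul]
      rfl
    rw [h1]
    have h2 : 1 ≤ 2 ^ i := Nat.one_le_two_pow
    have h3 : t ≤ t ^ 2 := Nat.le_self_pow two_ne_zero t
    calc 8 * m * t = 8 * (1 * m * t) := by ring
      _ ≤ 8 * (2 ^ i * m * t ^ 2) := by gcongr
  · intro k hk
    refine MulChar.map_nonunit _ ?_
    rw [ZMod.isUnit_iff_coprime]
    intro h
    apply hk
    have h1 : Nat.Coprime k 2 := Nat.Coprime.coprime_dvd_right
      (Dvd.dvd.mul_right (Dvd.dvd.mul_right (by norm_num) m) t) h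
    exact Nat.coprime_two_right.1 h1
  · intro k hk
    rw [jacobiSym.mul_left]
    by_cases hc : Nat.Coprime k (8 * m * t)
    · have hu : IsUnit (k : ZMod (8 * m * t)) := (ZMod.isUnit_iff_coprime _ _).2 hc
      have hct : Nat.Coprime k t := Nat.Coprime.coprime_dvd_right (dvd_mul_left t _) hc
      have h1 : jacobiSym ((t : ℤ) ^ 2) k = 1 := by
        refine jacobiSym.sq_one' ?_
        rw [Int.gcd_natCast_natCast]
        exact Nat.Coprime.symm hct
      have h2 := DirichletCharacter.changeLevel_eq_cast_of_dvd' (chi m ψ) hdvd (a := (k : ℤ))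
        (Nat.isCoprime_iff_coprime.2 hc)
      rw [h1, mul_one, hψ k hk, ← chi_apply]
      simpa using h2.symm
    · have hu : ¬ IsUnit (k : ZMod (8 * m * t)) := fun h => hc ((ZMod.isUnit_iff_coprime _ _).1 h)
      rw [MulChar.map_nonunit _ hu]
      have h8 : Nat.Coprime k 8 := (coprime8 hk)
      by_cases hkm : Nat.Coprime k m
      · have hkt : ¬ Nat.Coprime k t := fun h =>
          hc (Nat.Coprime.mul_right (Nat.Coprime.mul_right h8 hkm) h)
        have h1 : jacobiSym ((t : ℤ) ^ 2) k = 0 := by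
          rw [pow_two, jacobiSym.mul_left]
          have : jacobiSym (t : ℤ) k = 0 := by
            have : NeZero k := ⟨by rintro rfl; exact absurd hk (by decide)⟩
            rw [jacobiSym.eq_zero_iff_not_coprime, Int.gcd_natCast_natCast]
            exact fun h => hkt (Nat.Coprime.symm h)
          rw [this, zero_mul]
        rw [h1, mul_zero, Int.cast_zero]
      · have h1 : jacobiSym (σ * 2 ^ i * m) k = 0 := by
          rw [jacobiSym.mul_left]
          have : jacobiSym (m : ℤ) k = 0 := by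
            have : NeZero k := ⟨by rintro rfl; exact absurd hk (by decide)⟩
            rw [jacobiSym.eq_zero_iff_not_coprime, Int.gcd_natCast_natCast]
            exact fun h => hkm (Nat.Coprime.symm h)
          rw [this, mul_zero]
        rw [h1, zero_mul, Int.cast_zero]

/-- **Short sums of Jacobi symbols.** -/
theorem sum_jacobi (D : ℤ) (hD : D ≠ 0) (hsq : ¬ IsSquare D) (Y : ℕ) :
    |∑ k ∈ (range Y).filter (fun k => Odd k), (jacobiSym D k : ℝ)| ≤ 8 * |(D : ℝ)| := by
  obtain ⟨M, hM, χ, hχ, hMD, h0, h1⟩ := jacobi_char D hD hsq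
  have h2 := sum_char_range χ hχ Y
  have h3 : ∑ k ∈ range Y, χ (k : ZMod M) =
      ((∑ k ∈ (range Y).filter (fun k => Odd k), (jacobiSym D k : ℝ) : ℝ) : ℂ) := by
    rw [← sum_filter_add_sum_filter_not (range Y) (fun k => Odd k)]
    have e1 : ∑ k ∈ (range Y).filter (fun k => ¬ Odd k), χ (k : ZMod M) = 0 :=
      sum_eq_zero fun k hk => h0 k (mem_filter.1 hk).2
    rw [e1, add_zero]
    push_cast
    exact sum_congr rfl fun k hk => (h1 k (mem_filter.1 hk).2).symm
  rw [h3, Complex.norm_real, Real.norm_eq_abs] at h2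
  refine h2.trans ?_
  have h4 : (M : ℝ) ≤ 8 * (D.natAbs : ℝ) := by exact_mod_cast hMD
  rwa [Nat.cast_natAbs, Int.cast_abs] at h4

end Pool.Agent.Q42.SF
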