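import Pool.Agent.Q42.SF.Char

set_option autoImplicit false

/-! Duality for quadratic characters: few quadratic fields have only few primes that do not split. -/

namespace Pool.Agent.Q42.SF

open Finset

theorem eq_of_sq (s s' : ℤ) (hs : Squarefree s) (hs' : Squarefree s') (h : IsSquare (s * s')) :
    s = s' := by
  obtain ⟨r, hr⟩ := h
  have h1 : s ∣ r := by
    have h2 : s ∣ r ^ 2 := ⟨s', by rw [hr]; ring⟩
    exact (hs.dvd_pow_iff_dvd two_ne_zero).1 h2
  obtain ⟨c, rfl⟩ := h1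
  have h3 : s' = s * (c * c) := by
    have h4 : s * s' = s * (s * (c * c)) := by rw [hr]; ring
    exact mul_left_cancel₀ hs.ne_zero h4
  have h5 : IsUnit c := hs' c ⟨s, by rw [h3]; ring⟩
  have h6 : c * c = 1 := by
    rcases Int.isUnit_iff.1 h5 with h | h <;> rw [h] <;> norm_num
  rw [h3, h6, mul_one]

/-- the number of the factorisations of `v` into `k` primes of `P` -/
theorem fib_card (P : Finset ℕ) (hP : ∀ p ∈ P, p.Prime) (k v : ℕ) :
    ((Fintype.piFinset fun _ : Fin k => P).filter (fun f => ∏ i, f i = v)).card ≤ k ^ k := by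
  classical
  rcases ((Fintype.piFinset fun _ : Fin k => P).filter (fun f => ∏ i, f i = v)).eq_empty_or_nonempty
    with h | ⟨g, hg⟩
  · rw [h, card_empty]
    exact Nat.zero_le _
  · rw [mem_filter, Fintype.mem_piFinset] at hg
    have hsub : (Fintype.piFinset fun _ : Fin k => P).filter (fun f => ∏ i, f i = v) ⊆
        Fintype.piFinset fun _ : Fin k => univ.image g := by
      intro f hf
      rw [mem_filter, Fintype.mem_piFinset] at hf
      rw [Fintype.mem_piFinset]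
      intro i
      have hp := hP _ (hf.1 i)
      have h1 : f i ∣ ∏ j, g j := by
        rw [hg.2, ← hf.2]
        exact dvd_prod_of_mem f (mem_univ i)
      obtain ⟨j, _, hj⟩ := (Prime.dvd_finsetProd_iff hp.prime _).1 h1
      rw [mem_image]
      exact ⟨j, mem_univ j, ((Nat.prime_dvd_prime_iff_eq hp (hP _ (hg.1 j))).1 hj).symm⟩
    refine (card_le_card hsub).trans ?_
    rw [Fintype.card_piFinset_const]
    refine Nat.pow_le_pow_left ?_ k
    refine card_image_le.trans ?_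
    simp

theorem jac_prod (s : ℤ) {k : ℕ} (f : Fin k → ℕ) (hf : ∀ i, f i ≠ 0) :
    jacobiSym s (∏ i, f i) = ∏ i, jacobiSym s (f i) := by
  induction k with
  | zero => simp
  | succ k ih =>
    rw [Fin.prod_univ_succ, Fin.prod_univ_succ, jacobiSym.mul_right' _ (hf 0)
      (prod_ne_zero_iff.2 fun i _ => hf i.succ), ih _ fun i => hf i.succ]

theorem jac_le (s : ℤ) (p : ℕ) : (-1 : ℝ) ≤ (jacobiSym s p : ℝ) ∧ (jacobiSym s p : ℝ) ≤ 1 := by
  rcases jacobiSym.trichotomy s p with h | h | h <;> rw [h] <;> norm_num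

theorem sum_ge (P : Finset ℕ) (s : ℤ)
    (hE : 4 * (P.filter (fun p => jacobiSym s p ≠ 1)).card ≤ P.card) :
    (P.card : ℝ) / 2 ≤ ∑ p ∈ P, (jacobiSym s p : ℝ) := by
  rw [← sum_filter_add_sum_filter_not P (fun p => jacobiSym s p ≠ 1)]
  have h1 : -((P.filter (fun p => jacobiSym s p ≠ 1)).card : ℝ) ≤
      ∑ p ∈ P.filter (fun p => jacobiSym s p ≠ 1), (jacobiSym s p : ℝ) := by
    have := card_nsmul_le_sum (P.filter (fun p => jacobiSym s p ≠ 1))
      (fun p => (jacobiSym s p : ℝ)) (-1) fun p _ => (jac_le s p).1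
    rw [nsmul_eq_mul] at this
    linarith
  have h2 : ∑ p ∈ P.filter (fun p => ¬ jacobiSym s p ≠ 1), (jacobiSym s p : ℝ) =
      ((P.filter (fun p => ¬ jacobiSym s p ≠ 1)).card : ℝ) := by
    rw [sum_congr rfl (g := fun _ => (1 : ℝ))]
    · simp
    · intro p hp
      rw [mem_filter, not_not] at hp
      rw [hp.2]
      norm_num
  have h3 := card_filter_add_card_filter_not (s := P) (fun p => jacobiSym s p ≠ 1)
  have h3' : ((P.filter (fun p => jacobiSym s p ≠ 1)).card : ℝ) +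
      ((P.filter (fun p => ¬ jacobiSym s p ≠ 1)).card : ℝ) = P.card := by exact_mod_cast h3
  have h4 : 4 * ((P.filter (fun p => jacobiSym s p ≠ 1)).card : ℝ) ≤ P.card := by exact_mod_cast hE
  rw [h2]
  linarith

/-- **Duality.** -/
theorem dual (P : Finset ℕ) (y k : ℕ) (hP : ∀ p ∈ P, p.Prime ∧ p ≠ 2 ∧ p ≤ y) (S : Finset ℤ)
    (X : ℝ) (hS : ∀ s ∈ S, Squarefree s ∧ |(s : ℝ)| ≤ X)
    (hE : ∀ s ∈ S, 4 * (P.filter (fun p => jacobiSym s p ≠ 1)).card ≤ P.card)
    (hk : 16 * X ^ 2 * (4 * (k : ℝ)) ^ k ≤ (P.card : ℝ) ^ k) :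
    (S.card : ℝ) * (P.card : ℝ) ^ k ≤ 2 * (4 * (k : ℝ) * y) ^ k := by
  classical
  rcases S.eq_empty_or_nonempty with rfl | hne
  · simp
    positivity
  have hR : 0 < (S.card : ℝ) := by exact_mod_cast hne.card_pos
  have hX : 0 ≤ X := by
    obtain ⟨s, hs⟩ := hne
    exact (abs_nonneg _).trans (hS s hs).2
  set F : Finset (Fin k → ℕ) := Fintype.piFinset fun _ : Fin k => P with hF
  set g : ℕ → ℝ := fun v => ∑ s ∈ S, (jacobiSym s v : ℝ) with hg
  set V : Finset ℕ := (range (y ^ k + 1)).filter (fun v => Odd v) with hV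
  have hFc : (F.card : ℝ) = (P.card : ℝ) ^ k := by
    rw [hF, Fintype.card_piFinset_const]
    push_cast
    rfl
  -- lower bound
  have h1 : (S.card : ℝ) * ((P.card : ℝ) / 2) ^ k ≤ ∑ f ∈ F, g (∏ i, f i) := by
    have e1 : ∑ f ∈ F, g (∏ i, f i) = ∑ s ∈ S, (∑ p ∈ P, (jacobiSym s p : ℝ)) ^ k := by
      rw [hg, sum_comm]
      refine sum_congr rfl fun s _ => ?_
      have e2 : (∑ p ∈ P, (jacobiSym s p : ℝ)) ^ k =
          ∏ _i : Fin k, ∑ p ∈ P, (jacobiSym s p : ℝ) := by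
        rw [prod_const, card_univ, Fintype.card_fin]
      rw [e2, prod_univ_sum]
      refine sum_congr rfl fun f hf => ?_
      rw [Fintype.mem_piFinset] at hf
      rw [jac_prod s f fun i => (hP _ (hf i)).1.ne_zero]
      push_cast
      rfl
    rw [e1]
    have h2 := card_nsmul_le_sum S (fun s => (∑ p ∈ P, (jacobiSym s p : ℝ)) ^ k)
      (((P.card : ℝ) / 2) ^ k) fun s hs =>
        pow_le_pow_left₀ (by positivity) (sum_ge P s (hE s hs)) k
    rwa [nsmul_eq_mul] at h2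
  -- Cauchy-Schwarz
  have h2 : (∑ f ∈ F, g (∏ i, f i)) ^ 2 ≤ (F.card : ℝ) * ∑ f ∈ F, g (∏ i, f i) ^ 2 :=
    sq_sum_le_card_mul_sum_sq
  have hmaps : ∀ f ∈ F, ∏ i, f i ∈ V := by
    intro f hf
    rw [hF, Fintype.mem_piFinset] at hf
    rw [hV, mem_filter, mem_range]
    constructor
    · have : ∏ i, f i ≤ ∏ _i : Fin k, y := prod_le_prod' fun i _ => (hP _ (hf i)).2.2
      rw [prod_const, card_univ, Fintype.card_fin] at this
      omega
    · exact Finset.prod_induction _ Odd (fun _ _ => Odd.mul) odd_one fun i _ =>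
        (hP _ (hf i)).1.odd_of_ne_two (hP _ (hf i)).2.1
  have h3 : ∑ f ∈ F, g (∏ i, f i) ^ 2 ≤ (k : ℝ) ^ k * ∑ v ∈ V, g v ^ 2 := by
    rw [← sum_fiberwise_of_maps_to hmaps, mul_sum]
    refine sum_le_sum fun v _ => ?_
    have e1 : ∑ f ∈ F.filter (fun f => ∏ i, f i = v), g (∏ i, f i) ^ 2 =
        ∑ _f ∈ F.filter (fun f => ∏ i, f i = v), g v ^ 2 :=
      sum_congr rfl fun f hf => by rw [(mem_filter.1 hf).2]
    rw [e1, sum_const, nsmul_eq_mul]
    refine mul_le_mul_of_nonneg_right ?_ (sq_nonneg _)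
    exact_mod_cast fib_card P (fun p hp => (hP p hp).1) k v
  -- the second moment
  have h4 : ∑ v ∈ V, g v ^ 2 ≤ (S.card : ℝ) * (y : ℝ) ^ k + 8 * (S.card : ℝ) ^ 2 * X ^ 2 := by
    have e1 : ∑ v ∈ V, g v ^ 2 = ∑ s ∈ S, ∑ s' ∈ S, ∑ v ∈ V, (jacobiSym (s * s') v : ℝ) := by
      rw [hg]
      have : ∀ v ∈ V, (∑ s ∈ S, (jacobiSym s v : ℝ)) ^ 2 =
          ∑ s ∈ S, ∑ s' ∈ S, (jacobiSym (s * s') v : ℝ) := by
        intro v _
        rw [pow_two, sum_mul_sum]
        refine sum_congr rfl fun s _ => sum_congr rfl fun s' _ => ?_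
        rw [jacobiSym.mul_left]
        push_cast
        rfl
      rw [sum_congr rfl this, sum_comm]
      refine sum_congr rfl fun s _ => sum_comm
    rw [e1]
    have h5 : ∀ s ∈ S, ∑ s' ∈ S, ∑ v ∈ V, (jacobiSym (s * s') v : ℝ) ≤
        (y : ℝ) ^ k + (S.card : ℝ) * (8 * X ^ 2) := by
      intro s hs
      rw [← add_sum_erase S _ hs]
      refine add_le_add ?_ ?_
      · have h6 : (V.card : ℝ) ≤ (y : ℝ) ^ k := by
          have h7 : V ⊆ Icc 1 (y ^ k) := by
            intro v hv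
            rw [hV, mem_filter, mem_range] at hv
            rw [mem_Icc]
            have := hv.2.pos
            omega
          have h8 := card_le_card h7
          rw [Nat.card_Icc, Nat.add_sub_cancel] at h8
          exact_mod_cast h8
        refine le_trans ?_ h6
        refine (sum_le_card_nsmul V _ 1 fun v _ => (jac_le _ v).2).trans ?_
        rw [nsmul_eq_mul, mul_one]
      · have h6 : ∀ s' ∈ S.erase s, ∑ v ∈ V, (jacobiSym (s * s') v : ℝ) ≤ 8 * X ^ 2 := by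
          intro s' hs'
          rw [mem_erase] at hs'
          have hsq := (hS s hs).1
          have hsq' := (hS s' hs'.2).1
          have h7 := sum_jacobi (s * s') (mul_ne_zero hsq.ne_zero hsq'.ne_zero)
            (fun h => hs'.1 (eq_of_sq s s' hsq hsq' h).symm) (y ^ k + 1)
          refine (le_abs_self _).trans (h7.trans ?_)
          push_cast
          rw [abs_mul]
          have h8 := mul_le_mul (hS s hs).2 (hS s' hs'.2).2 (abs_nonneg _) hX
          nlinarith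
        refine (sum_le_card_nsmul (S.erase s) _ (8 * X ^ 2) h6).trans ?_
        rw [nsmul_eq_mul]
        refine mul_le_mul_of_nonneg_right ?_ (by positivity)
        exact_mod_cast card_le_card (erase_subset s S)
    refine (sum_le_card_nsmul S _ _ h5).trans (le_of_eq ?_)
    rw [nsmul_eq_mul]
    ring
  -- conclusion
  set R : ℝ := (S.card : ℝ) with hRdef
  set p : ℝ := (P.card : ℝ) ^ k with hp
  have hp0 : 0 ≤ p := by rw [hp]; positivity
  have h5 : (R * (p / 2 ^ k)) ^ 2 ≤ p * ((k : ℝ) ^ k * (R * (y : ℝ) ^ k + 8 * R ^ 2 * X ^ 2)) := by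
    have e1 : R * (p / 2 ^ k) = R * ((P.card : ℝ) / 2) ^ k := by rw [hp, div_pow]
    rw [e1]
    refine (pow_le_pow_left₀ (by positivity) h1 2).trans (h2.trans ?_)
    rw [hFc]
    refine mul_le_mul_of_nonneg_left (h3.trans ?_) hp0
    exact mul_le_mul_of_nonneg_left h4 (by positivity)
  have e4 : (4 : ℝ) ^ k = (2 ^ k) ^ 2 := by
    rw [← pow_mul, mul_comm k 2, pow_mul]
    norm_num
  have h6 : 8 * R ^ 2 * X ^ 2 * (k : ℝ) ^ k * p ≤ (R * (p / 2 ^ k)) ^ 2 / 2 := by
    rw [mul_pow, e4] at hk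
    have e2 : (R * (p / 2 ^ k)) ^ 2 / 2 = R ^ 2 * p ^ 2 / (2 * (2 ^ k) ^ 2) := by
      field_simp
    rw [e2, le_div_iff₀ (by positivity)]
    have h7 := mul_le_mul_of_nonneg_left hk (show 0 ≤ R ^ 2 * p by positivity)
    calc 8 * R ^ 2 * X ^ 2 * (k : ℝ) ^ k * p * (2 * (2 ^ k) ^ 2) =
        R ^ 2 * p * (16 * X ^ 2 * ((2 ^ k) ^ 2 * (k : ℝ) ^ k)) := by ring
      _ ≤ R ^ 2 * p * p := h7
      _ = R ^ 2 * p ^ 2 := by ring
  rcases eq_or_lt_of_le hp0 with h0 | h0
  · rw [← h0, mul_zero]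
    positivity
  have h7 : (R * (p / 2 ^ k)) ^ 2 / 2 ≤ p * ((k : ℝ) ^ k * (R * (y : ℝ) ^ k)) := by
    nlinarith [h5, h6]
  have e2 : (R * (p / 2 ^ k)) ^ 2 / 2 = (R * p) * (R * p / (2 * 4 ^ k)) := by
    rw [e4]
    field_simp
  rw [e2] at h7
  have h8 : R * p / (2 * 4 ^ k) ≤ (k : ℝ) ^ k * (y : ℝ) ^ k := by
    have h9 : (R * p) * (R * p / (2 * 4 ^ k)) ≤ (R * p) * ((k : ℝ) ^ k * (y : ℝ) ^ k) := by
      calc _ ≤ _ := h7
        _ = _ := by ring
    exact le_of_mul_le_mul_left h9 (by positivity)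
  rw [div_le_iff₀ (by positivity)] at h8
  calc R * p ≤ (k : ℝ) ^ k * (y : ℝ) ^ k * (2 * 4 ^ k) := h8
    _ = 2 * (4 * (k : ℝ) * y) ^ k := by rw [mul_pow, mul_pow]; ring

end Pool.Agent.Q42.SF
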